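import Pool.Agent.PFD.StmtsD6b

/-!
# Squad PFD, block D6, row CHS (helper59): sums over cosets vanish
-/

open scoped BigOperators

noncomputable section

namespace Pool.Agent.PFD.D6.H59

open Pool.Agent.PFC

/-- a function on a finite `ℓ`-group with a nontrivial period has sum zero -/
theorem sum_inv {F V : Type} [Field F] [CommGroup V] [Fintype V] (ℓ : ℕ) [CharP F ℓ]
    (hpr : ℓ.Prime) (hpg : IsPGroup ℓ V) (f : V → F) (k : V) (hk : k ≠ 1)
    (hf : ∀ w, f (w * k) = f w) : ∑ w, f w = 0 := by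
  classical
  have hpr' : Fact ℓ.Prime := ⟨hpr⟩
  set K : Subgroup V := Subgroup.zpowers k with hK
  have hfn : ∀ (n : ℕ) (w : V), f (w * k ^ n) = f w := by
    intro n
    induction n with
    | zero =>
      intro w
      rw [pow_zero, mul_one]
    | succ n ih =>
      intro w
      rw [pow_succ, ← mul_assoc, hf, ih]
  have hfK : ∀ h ∈ K, ∀ w, f (w * h) = f w := by
    intro h hh w
    have h1 : h ∈ Submonoid.powers k := mem_powers_iff_mem_zpowers.2 hh
    obtain ⟨n, rfl⟩ := h1
    exact hfn n w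
  have hcard : ((Fintype.card K : ℕ) : F) = 0 := by
    rw [CharP.cast_eq_zero_iff F ℓ, Fintype.card_zpowers]
    obtain ⟨m, hm⟩ := IsPGroup.iff_orderOf.1 hpg k
    rw [hm]
    apply dvd_pow_self
    rintro rfl
    rw [pow_zero, orderOf_eq_one_iff] at hm
    exact hk hm
  have hbij : Function.Bijective (fun z : (V ⧸ K) × K => (z.1.out * (z.2 : V) : V)) := by
    constructor
    · rintro ⟨q, w⟩ ⟨q', w'⟩ h
      have h' : q.out * (w : V) = q'.out * (w' : V) := h
      have hq : ∀ (q : V ⧸ K) (w : K), (QuotientGroup.mk (q.out * (w : V)) : V ⧸ K) = q := by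
        intro q w
        rw [QuotientGroup.mk_mul_of_mem _ w.2]
        exact QuotientGroup.out_eq' q
      have h2 : q = q' := by rw [← hq q w, ← hq q' w', h']
      subst h2
      have h3 : (w : V) = w' := mul_left_cancel h'
      rw [Subtype.ext h3]
    · intro g
      have h1 : (QuotientGroup.mk g : V ⧸ K).out⁻¹ * g ∈ K := by
        rw [← QuotientGroup.eq]
        exact QuotientGroup.out_eq' _
      exact ⟨(QuotientGroup.mk g, ⟨_, h1⟩), mul_inv_cancel_left _ _⟩
  rw [← hbij.sum_comp f, Fintype.sum_prod_type]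
  apply Finset.sum_eq_zero
  intro q _
  have h1 : ∀ h : K, f (q.out * (h : V)) = f q.out := fun h => hfK h h.2 _
  simp only [h1]
  rw [Finset.sum_const, Finset.card_univ, nsmul_eq_mul, hcard, zero_mul]

theorem chs : ChsStmt := by
  intro F V E A _ _ _ _ _ _ ℓ _ φ W α n n' c lam hctf hunt hsym e he
  obtain ⟨u, hu⟩ := hctf.nt
  have hinv : ∀ v : V, α v⁻¹ * α v = 1 := fun v => by
    rw [← map_mul, inv_mul_cancel, map_one]
  have hn' : ∀ v : V, n' e * α v = α (φ e⁻¹ v) * n' e := by
    intro v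
    have h1 : φ e (φ e⁻¹ v) = v := by
      rw [← MulAut.mul_apply, ← map_mul, mul_inv_cancel, map_one, MulAut.one_apply]
    have h2 := hunt.tw e (φ e⁻¹ v)
    rw [h1] at h2
    calc n' e * α v = n' e * (α v * n e) * n' e := by
          rw [mul_assoc, mul_assoc, hunt.ri, mul_one]
      _ = n' e * (n e * α (φ e⁻¹ v)) * n' e := by rw [h2]
      _ = α (φ e⁻¹ v) * n' e := by rw [← mul_assoc (n' e), hunt.li, one_mul]
  have key : ∀ (x : A) (e' : E), e' ≠ 1 → (∀ v, x * α v = α (φ e' v) * x) →
      ∑ w, lam (α w * x) = 0 := by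
    intro x e' he' hx
    apply sum_inv ℓ hctf.pr hctf.pg (fun w => lam (α w * x)) (u⁻¹ * φ e' u)
    · intro h
      have h1 : φ e' u = u := (inv_mul_eq_one.1 h).symm
      rcases hctf.free e' u h1 with h2 | h2
      · exact he' h2
      · exact hu h2
    · intro w
      have h1 : α (w * (u⁻¹ * φ e' u)) * x = α u⁻¹ * (α w * x * α u) := by
        rw [mul_assoc (α w), hx, ← mul_assoc (α w), ← mul_assoc (α u⁻¹), ← map_mul, ← map_mul]
        congr 2
        rw [mul_left_comm]
      have h2 : α u * α u⁻¹ = 1 := by rw [← map_mul, mul_inv_cancel, map_one]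
      rw [h1, hsym, mul_assoc (α w * x), h2, mul_one]
  constructor
  · exact key (n' e) e⁻¹ (inv_ne_one.2 he) hn'
  · exact key (n e) e he (hunt.tw e)

end Pool.Agent.PFD.D6.H59
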